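import Pool.Agent.H37.MHD.Final2
import Pool.Agent.H37.MHD.Seq

/-!
# Non-uniqueness of weak solutions of the multifluid incompressible MHD system

For every nonempty bounded open set `Ω` of space (in particular for every bounded simply connected
domain with smooth boundary) and every final time `T > 0` there are admissible data (with a
continuous initial density between `3/4` and `5/4`, vanishing initial velocity and magnetic field,
a continuous force, and constant viscosity and conductivity) for which the system has two weak
solutions with different velocities.

Idea of the proof. The magnetic field is zero. The two velocities are perturbations of `t ^ 3 w`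
and `- t ^ 3 w` for a small steady divergence free field `w`. Both momentum equations are solved
with the same force by an iteration over smooth approximate solutions. In each step the initial
density gets a small modulation `ε ∑ cos (λ μ φ)` of high frequency, which is transported by the
two flows in two different ways, so that an oscillating force in resonance with the transported
modulations can compensate the momentum error of each of the two solutions separately. The
non-resonant oscillating terms are removed by small divergence free correctors. The only phases
which may degenerate are the differences of the two transported phases; the weights of the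
construction contain the fourth power of their gradients, and four phases suffice, because all the
gradients of the differences vanish only where the two flows coincide.
-/

open MeasureTheory H36.MHD

namespace Pool.Agent.Results.MP_59296a_an.NonUniqueness

/-- Non-uniqueness of weak solutions of the multifluid incompressible MHD system, in every
bounded open set and on every time interval. -/
theorem result (Ω : Set V3) (hΩ : IsOpen Ω) (hne : Ω.Nonempty) (hb : Bornology.IsBounded Ω)
    (T : ℝ) (hT : 0 < T) :
    ∃ (D : Data Ω T) (ρ₁ ρ₂ : ℝ → V3 → ℝ) (u₁ u₂ : ℝ → V3 → V3),
      (Continuous D.ρ₀ ∧ (∀ x, 3 / 4 ≤ D.ρ₀ x ∧ D.ρ₀ x ≤ 5 / 4) ∧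
        Continuous (fun z : ℝ × V3 => D.f z.1 z.2) ∧ (∀ x, D.u₀ x = 0) ∧ (∀ x, D.B₀ x = 0) ∧
        (∀ s, D.η s = 1) ∧ (∀ s, D.σ s = 1)) ∧
      IsWeakSolution Ω T D ρ₁ u₁ (fun _ _ => 0) ∧
      IsWeakSolution Ω T D ρ₂ u₂ (fun _ _ => 0) ∧
      ¬ ((fun z : ℝ × V3 => u₁ z.1 z.2) =ᵐ[volume.restrict (cyl Ω T)]
          fun z : ℝ × V3 => u₂ z.1 z.2) :=
  H37.MHD.nonuniqueness_of (fun B => H37.MHD.exists_sequence B) Ω hΩ hne hb T hT

end Pool.Agent.Results.MP_59296a_an.NonUniqueness
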